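import Mathlib

set_option autoImplicit false

namespace Pool.Agent.H.MP_811251_al

open TensorProduct

variable (k : Type) [Field k] {R : Type} [CommRing R] [Algebra k R] {n : ℕ}

/-- The underlying algebra of the Koszul complex on `n` elements of `R`. -/
abbrev Kz (R : Type) [CommRing R] [Algebra k R] (n : ℕ) := R ⊗[k] ExteriorAlgebra k (Fin n → k)

/-- Contraction by a linear form on an exterior algebra. -/
noncomputable def ctr {V : Type} [AddCommGroup V] [Module k V] (φ : Module.Dual k V) :
    ExteriorAlgebra k V →ₗ[k] ExteriorAlgebra k V :=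
  CliffordAlgebra.contractLeft φ

/-- The sum over `j` of `x j` tensor `δ j`. -/
noncomputable def tsum {E : Type} [AddCommGroup E] [Module k E] (x : Fin n → R) (δ : Fin n → E →ₗ[k] E)
    (z : R ⊗[k] E) : R ⊗[k] E :=
  ∑ j, x j • (δ j).baseChange R z

/-- The Koszul differential, the antiderivation with `e j` going to `x j`. -/
noncomputable def kdf (x : Fin n → R) : Kz k R n → Kz k R n :=
  tsum k x fun j => ctr k (LinearMap.proj j)

/-- The homological degree `i` part. -/
noncomputable def Kdeg (R : Type) [CommRing R] [Algebra k R] (n i : ℕ) : Submodule R (Kz k R n) :=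
  (⋀[k]^i (Fin n → k)).baseChange R

/-- The sum of the degrees plus the length. -/
def wt {B : Type} (deg : B → ℕ) (l : List B) : ℕ := (l.map fun b => deg b + 1).sum

/-- A trivial Massey operation on a graded algebra `M` with pieces `K i` and differential `d`. -/
def Massey {M : Type} [Ring M] [Module k M] (K : ℕ → Set M) (d : M → M) : Prop :=
  ∃ (B : Type) (deg : B → ℕ) (μ : List B → M), (∀ b, 1 ≤ deg b) ∧
    (∀ l, l ≠ [] → μ l ∈ K (wt deg l - 1)) ∧
    (∀ l, l ≠ [] → d (μ l) = ∑ j ∈ Finset.Ico 1 l.length,
      (-1) ^ wt deg (l.take j) * (μ (l.take j) * μ (l.drop j))) ∧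
    ∀ i, 1 ≤ i → ∀ z ∈ K i, d z = 0 →
      ∃ w ∈ Submodule.span k (Set.range fun b => μ [b]), ∃ t, z = w + d t

/-- The Koszul complex on `x` admits a trivial Massey operation. -/
def Golod (x : Fin n → R) : Prop :=
  Massey k (fun i => (Kdeg k R n i : Set (Kz k R n))) (kdf k x)

end Pool.Agent.H.MP_811251_al
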