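import Mathlib
import Pool.Agent.H.MP_811251_al.Defs
import Pool.Agent.H.MP_7e1e73_al.A

set_option autoImplicit false

namespace Pool.Agent.H.MP_811251_al

open TensorProduct ExteriorAlgebra Pool.Agent.H.MP_7e1e73_al

variable {k : Type} [Field k] {R : Type} [CommRing R] [Algebra k R] {n : ℕ} (x : Fin n → R)

variable (k) in
noncomputable def kd : Kz k R n →ₗ[R] Kz k R n := ∑ j, x j • (dl (LinearMap.proj j)).baseChange R

lemma kd_eq : kdf k x = kd k x := by
  funext z; simp [kdf, tsum, kd, ctr, dl]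

lemma sgn (m : ℕ) (a : Kz k R n) : (-1) ^ m * a = (-1 : R) ^ m • a := by
  rw [Algebra.smul_def, map_pow, map_neg, map_one]

lemma kd_tmul (r : R) (a : Ex k (Fin n → k)) :
    kd k x (r ⊗ₜ a) = ∑ j, (x j * r) ⊗ₜ dl (LinearMap.proj j) a := by
  simp [kd, smul_tmul']

lemma dl_leib {V : Type} [AddCommGroup V] [Module k V] (φ : Module.Dual k V) :
    ∀ (i : ℕ) {a : Ex k V}, a ∈ L1 k V ^ i → ∀ b, dl φ (a * b) = dl φ a * b + (-1 : k) ^ i • (a * dl φ b)
  | 0, a, h, b => by
    rw [pow_zero] at h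
    obtain ⟨r, rfl⟩ := Submodule.mem_one.1 h
    simp [dl_alg, ← Algebra.smul_def]
  | i + 1, a, h, b => by
    rw [pow_succ'] at h
    refine Submodule.mul_induction_on h ?_ fun a b ha hb => by
      simp only [add_mul, map_add, ha, hb, smul_add]; abel
    rintro _ ⟨v, rfl⟩ c hc
    rw [mul_assoc, dl_mul, dl_mul, dl_leib φ i hc, pow_succ]
    simp only [mul_add, sub_mul, smul_mul_assoc, mul_smul_comm, mul_assoc, mul_neg_one, neg_smul]
    abel

lemma Kind {i : ℕ} {p : Kz k R n → Prop} {z : Kz k R n} (hz : z ∈ Kdeg k R n i)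
    (h1 : ∀ r, ∀ a ∈ L1 k (Fin n → k) ^ i, p (r ⊗ₜ a)) (h2 : ∀ a b, p a → p b → p (a + b)) : p z := by
  obtain ⟨t, rfl⟩ := hz
  induction t using TensorProduct.induction_on with
  | zero => simpa using h1 0 0 (zero_mem _)
  | tmul r a => exact h1 r a a.2
  | add a b ha hb => rw [map_add]; exact h2 _ _ ha hb

lemma tmul_mem {i : ℕ} (r : R) {a : Ex k (Fin n → k)} (h : a ∈ L1 k (Fin n → k) ^ i) :
    r ⊗ₜ a ∈ Kdeg k R n i := Submodule.tmul_mem_baseChange_of_mem r h

lemma leib {i : ℕ} {a : Kz k R n} (h : a ∈ Kdeg k R n i) (b : Kz k R n) :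
    kd k x (a * b) = kd k x a * b + (-1 : R) ^ i • (a * kd k x b) := by
  refine Kind (p := fun a => kd k x (a * b) = kd k x a * b + (-1 : R) ^ i • (a * kd k x b)) h
    (fun r a ha => ?_) fun a b ha hb => by simp only [add_mul, map_add, ha, hb, smul_add]; abel
  induction b using TensorProduct.induction_on with
  | zero => simp
  | add a b ha hb => simp only [mul_add, map_add, ha, hb, smul_add]; abel
  | tmul s b =>
    simp only [Algebra.TensorProduct.tmul_mul_tmul, kd_tmul, dl_leib _ i ha, Finset.sum_mul, Finset.mul_sum,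
      Finset.smul_sum, tmul_add, Finset.sum_add_distrib, tmul_smul, smul_tmul']
    congr 1 <;> refine Finset.sum_congr rfl fun j _ => ?_
    · rw [mul_assoc]
    · congr 1
      simp [Algebra.smul_def]; ring

lemma mul_deg {i j : ℕ} {a b : Kz k R n} (ha : a ∈ Kdeg k R n i) (hb : b ∈ Kdeg k R n j) :
    a * b ∈ Kdeg k R n (i + j) :=
  Kind (p := fun a => a * b ∈ Kdeg k R n (i + j)) ha (fun r a ha =>
    Kind (p := fun b => r ⊗ₜ a * b ∈ Kdeg k R n (i + j)) hb (fun s b hb => by
      rw [Algebra.TensorProduct.tmul_mul_tmul]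
      exact tmul_mem _ (pow_add (L1 k (Fin n → k)) i j ▸ Submodule.mul_mem_mul ha hb))
      fun _ _ h1 h2 => by rw [mul_add]; exact add_mem h1 h2)
    fun _ _ h1 h2 => by rw [add_mul]; exact add_mem h1 h2

lemma mul_deg' {i j : ℕ} {A : Ideal R} {a b : Kz k R n} (ha : a ∈ A • Kdeg k R n i)
    (hb : b ∈ A • Kdeg k R n j) : a * b ∈ (A * A) • Kdeg k R n (i + j) :=
  Submodule.smul_induction_on (p := fun a => a * b ∈ (A * A) • Kdeg k R n (i + j)) ha (fun r hr a ha =>
    Submodule.smul_induction_on (p := fun b => r • a * b ∈ (A * A) • Kdeg k R n (i + j)) hb (fun s hs b hb => by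
      rw [smul_mul_smul_comm]
      exact Submodule.smul_mem_smul (Ideal.mul_mem_mul hr hs) (mul_deg ha hb))
      fun _ _ h1 h2 => by rw [mul_add]; exact add_mem h1 h2)
    fun _ _ h1 h2 => by rw [add_mul]; exact add_mem h1 h2

open Classical in
noncomputable def mas {B M : Type} [Ring M] [Module R M] (deg : B → ℕ) (h : B → M)
    (P : ℕ → M → M → Prop) (l : List B) : M :=
  if e : l.length = 1 then h (l.get ⟨0, by omega⟩) else
    epsilon (P (wt deg l - 1) (∑ j ∈ (Finset.Ico 1 l.length).attach,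
      (-1 : R) ^ wt deg (l.take j) • (mas deg h P (l.take j) * mas deg h P (l.drop j))))
termination_by l.length
decreasing_by
  all_goals
    have := Finset.mem_Ico.1 j.2
    simp; omega

lemma wt_split {B : Type} (deg : B → ℕ) (l : List B) (j : ℕ) :
    wt deg (l.take j) + wt deg (l.drop j) = wt deg l := by
  simp only [wt, ← List.sum_append, ← List.map_append, List.take_append_drop]

lemma wt_pos {B : Type} (deg : B → ℕ) {l : List B} (h : l ≠ []) : 1 ≤ wt deg l := by
  obtain ⟨b, l, rfl⟩ := List.exists_cons_of_ne_nil h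
  simp [wt]; omega

theorem golod_of (A : Ideal R)
    (H1 : ∀ i, 1 ≤ i → ∀ z ∈ Kdeg k R n i, kd k x z = 0 →
      ∃ w ∈ A • Kdeg k R n i, kd k x w = 0 ∧ ∃ t, z = w + kd k x t)
    (H2 : ∀ j, ∀ z ∈ (A * A) • Kdeg k R n j, kd k x z = 0 → ∃ t ∈ A • Kdeg k R n (j + 1), kd k x t = z) :
    Golod k x := by
  let B := {p : ℕ × Kz k R n // 1 ≤ p.1 ∧ p.2 ∈ A • Kdeg k R n p.1 ∧ kd k x p.2 = 0}
  let deg : B → ℕ := fun b => b.1.1
  let μ : List B → Kz k R n := mas (R := R) deg (fun b => b.1.2)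
    fun i s t => t ∈ A • Kdeg k R n i ∧ kd k x t = s
  have m1 : ∀ b, μ [b] = b.1.2 := fun b => by simp only [μ]; rw [mas]; simp
  have key : ∀ m (l : List B), l.length = m → l ≠ [] → μ l ∈ A • Kdeg k R n (wt deg l - 1) ∧
      kd k x (μ l) = ∑ j ∈ Finset.Ico 1 l.length,
        (-1 : R) ^ wt deg (l.take j) • (μ (l.take j) * μ (l.drop j)) := by
    intro m
    induction m using Nat.strong_induction_on with | _ m ih => ?_
    rintro l rfl hl
    by_cases e : l.length = 1
    · obtain ⟨b, rfl⟩ := List.length_eq_one_iff.1 e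
      rw [m1]
      exact ⟨by simpa [wt] using b.2.2.1, by simpa using b.2.2.2⟩
    have t1 : ∀ j ∈ Finset.Ico 1 l.length, l.take j ≠ [] ∧ l.drop j ≠ [] ∧ (l.take j).length = j ∧
        (l.drop j).length = l.length - j ∧ j < l.length ∧ l.length - j < l.length := fun j hj => by
      have := Finset.mem_Ico.1 hj
      simp; refine ⟨⟨?_, hl⟩, ?_⟩ <;> omega
    have i1 := fun j hj => ih _ (t1 j hj).2.2.2.2.1 _ (t1 j hj).2.2.1 (t1 j hj).1
    have i2 := fun j hj => ih _ (t1 j hj).2.2.2.2.2 _ (t1 j hj).2.2.2.1 (t1 j hj).2.1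
    have w2 : wt deg l - 2 + 1 = wt deg l - 1 := by
      have h1 : 1 ∈ Finset.Ico 1 l.length := by
        have := List.length_pos_iff.2 hl
        simp; omega
      have := wt_split deg l 1
      have := wt_pos deg (t1 1 h1).1
      have := wt_pos deg (t1 1 h1).2.1
      omega
    have := H2 (wt deg l - 2) (∑ j ∈ Finset.Ico 1 l.length,
        (-1 : R) ^ wt deg (l.take j) • (μ (l.take j) * μ (l.drop j))) (sum_mem fun j hj => by
      refine Submodule.smul_mem _ _ ?_
      have := wt_split deg l j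
      have := wt_pos deg (t1 j hj).1
      have := wt_pos deg (t1 j hj).2.1
      convert mul_deg' (i1 j hj).1 (i2 j hj).1 using 3
      omega) (by
      let T : ℕ → ℕ → Kz k R n := fun i j => (-1 : R) ^ wt deg ((l.drop i).take (j - i)) •
        (μ (l.take i) * μ ((l.drop i).take (j - i)) * μ (l.drop j))
      have : ∀ j ∈ Finset.Ico 1 l.length, kd k x ((-1 : R) ^ wt deg (l.take j) •
          (μ (l.take j) * μ (l.drop j))) =
          ∑ i ∈ Finset.Ico 1 j, T i j - ∑ i ∈ Finset.Ico (j + 1) l.length, T j i := by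
        intro j hj
        obtain ⟨u, hu⟩ := Nat.exists_eq_add_of_le' (wt_pos deg (t1 j hj).1)
        rw [map_smul, leib x (Submodule.smul_le_right (i1 j hj).1), (i1 j hj).2, (i2 j hj).2, smul_add,
          smul_smul, (t1 j hj).2.2.1, (t1 j hj).2.2.2.1, Finset.sum_mul, Finset.smul_sum, Finset.mul_sum,
          sub_eq_add_neg]
        congr 1
        · refine Finset.sum_congr rfl fun i hi => ?_
          have := Finset.mem_Ico.1 hi
          rw [← wt_split deg (l.take j) i, List.take_take, min_eq_left this.2.le, List.drop_take,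
            smul_mul_assoc, smul_smul, pow_add, mul_right_comm, ← mul_pow]
          simp [T]
        · rw [hu, Nat.add_sub_cancel, pow_succ, mul_right_comm, ← mul_pow, add_comm j,
            ← Nat.sub_add_cancel (t1 j hj).2.2.2.2.1.le, ← Finset.sum_Ico_add', Nat.add_sub_cancel]
          simp [T, mul_assoc, add_comm]
      rw [map_sum, Finset.sum_congr rfl this, Finset.sum_sub_distrib, Finset.sum_Ico_Ico_comm', sub_self])
    rw [w2] at this
    have e2 := Classical.epsilon_spec this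
    simp only [μ] at e2 ⊢
    rw [mas, dif_neg e, Finset.sum_attach (Finset.Ico 1 l.length) fun j => (-1 : R) ^ wt deg (l.take j) •
      (mas (R := R) deg _ _ (l.take j) * mas (R := R) deg _ _ (l.drop j))]
    exact e2
  rw [Golod, kd_eq]
  refine ⟨B, deg, μ, fun b => b.2.1, fun l hl => Submodule.smul_le_right (key _ l rfl hl).1,
    fun l hl => by simpa only [sgn] using (key _ l rfl hl).2, fun i hi z hz h => ?_⟩
  obtain ⟨w, h1, h2, h3⟩ := H1 i hi z hz h
  exact ⟨w, Submodule.subset_span ⟨⟨(i, w), hi, h1, h2⟩, m1 _⟩, h3⟩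

lemma dl_zero {V : Type} [AddCommGroup V] [Module k V] [FiniteDimensional k V] {a : Ex k V}
    (h : ∀ φ, dl φ a = 0) (Y : Submodule k V) : a ∈ II Y → a = 0 := by
  induction Y using WellFoundedLT.induction with | ind Y ih => ?_
  intro h2
  by_cases e : Y = ⊥
  · simpa [e, II] using h2
  obtain ⟨v, hv, hv'⟩ := (Submodule.ne_bot_iff _).1 e
  obtain ⟨φ, e1, -⟩ := exists_phi (U := (⊥ : Submodule k V)) (x := v) (by simpa)
  refine ih (Y ⊓ LinearMap.ker φ) (lt_of_le_of_ne inf_le_left fun e => ?_) ?_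
  · have : φ v = 0 := (e.ge hv).2
    simp [e1] at this
  · simpa [h] using colL (U := Y ⊓ LinearMap.ker φ) (a := a) e1 (fun u hu => hu.2)
      (II_mono (fun y hy => Submodule.mem_sup.2 ⟨y - φ y • v,
        Submodule.mem_inf.2 ⟨sub_mem hy (Y.smul_mem _ hv), by simp [e1]⟩, φ y • v,
        Submodule.smul_mem _ _ (Submodule.mem_span_singleton_self _), by simp⟩) h2)

/-- Cycles of positive degree have coefficients in the maximal ideal. -/
lemma cyc_mem (ε : R →ₐ[k] k) (D : Fin n → R →ₗ[k] k)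
    (hD : ∀ i j r, D i (x j * r) = if i = j then ε r else 0) {i : ℕ} (hi : 1 ≤ i) {z : Kz k R n}
    (hz : z ∈ Kdeg k R n i) (h : kd k x z = 0) : z ∈ RingHom.ker ε • Kdeg k R n i := by
  let c : (R →ₗ[k] k) → Kz k R n →ₗ[k] Ex k (Fin n → k) := fun f =>
    (TensorProduct.lid k _).toLinearMap ∘ₗ f.rTensor _
  have c1 : ∀ f r a, c f (r ⊗ₜ a) = f r • a := fun f r a => by simp [c]
  have k1 : ∀ j (z : Kz k R n), c (D j) (kd k x z) = dl (LinearMap.proj j) (c ε.toLinearMap z) := by
    intro j z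
    induction z using TensorProduct.induction_on with
    | zero => simp
    | add a b ha hb => simp only [map_add, ha, hb]
    | tmul r a => simp [kd_tmul, c1, hD]
  have k2 : c ε.toLinearMap z ∈ II (⊤ : Submodule k (Fin n → k)) ∧
      z - 1 ⊗ₜ c ε.toLinearMap z ∈ RingHom.ker ε • Kdeg k R n i := by
    refine Kind (p := fun z => c ε.toLinearMap z ∈ II (⊤ : Submodule k (Fin n → k)) ∧
      z - 1 ⊗ₜ c ε.toLinearMap z ∈ RingHom.ker ε • Kdeg k R n i) hz (fun r a ha => ⟨?_, ?_⟩) ?_
    · rw [c1]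
      refine Submodule.smul_of_tower_mem _ _ ?_
      obtain ⟨i, rfl⟩ := Nat.exists_eq_add_of_le' hi
      rw [pow_succ'] at ha
      exact Submodule.mul_induction_on ha
        (by rintro _ ⟨v, rfl⟩ b _; exact ι_mul_mem (ι_mem Submodule.mem_top) b) fun _ _ => add_mem
    · have : r ⊗ₜ[k] a - 1 ⊗ₜ c ε.toLinearMap (r ⊗ₜ a) = (r - algebraMap k R (ε r)) • (1 : R) ⊗ₜ[k] a := by
        simp [c1, sub_smul, smul_tmul']
      rw [this]
      exact Submodule.smul_mem_smul (by simp [RingHom.mem_ker]) (tmul_mem _ ha)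
    · rintro a b ⟨h1, h2⟩ ⟨h3, h4⟩
      rw [map_add, tmul_add, add_sub_add_comm]
      exact ⟨add_mem h1 h3, add_mem h2 h4⟩
  have : c ε.toLinearMap z = 0 := dl_zero (fun φ => by
    have : φ = ∑ j, φ (Pi.single j 1) • LinearMap.proj j := by
      ext j; simp [Pi.single_apply]
    rw [this, dl, map_sum, LinearMap.sum_apply]
    refine Finset.sum_eq_zero fun j _ => ?_
    rw [map_smul, LinearMap.smul_apply, ← dl, ← k1, h, map_zero, smul_zero]) _ k2.1
  simpa [this] using k2.2

end Pool.Agent.H.MP_811251_al
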