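import Mathlib
import Pool.Agent.H.MP_811251_al.G

set_option autoImplicit false

namespace Pool.Agent.H.MP_811251_al

open TensorProduct ExteriorAlgebra Pool.Agent.H.MP_7e1e73_al MvPolynomial

variable {k : Type} [Field k] {n : ℕ}

lemma quot_cyc (I : Ideal (MvPolynomial (Fin n) k))
    (hI : I ≤ Ideal.span {p | ∃ i j, p = X i * X j}) {i : ℕ} (hi : 1 ≤ i)
    {z : Kz k (MvPolynomial (Fin n) k ⧸ I) n} (hz : z ∈ Kdeg k _ n i)
    (h : kd k (fun j => Ideal.Quotient.mk I (X j)) z = 0) :
    z ∈ Ideal.span (Set.range fun j => Ideal.Quotient.mk I (X j)) • Kdeg k _ n i := by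
  let e : MvPolynomial (Fin n) k →ₐ[k] k := aeval fun _ => 0
  let d : Fin n → MvPolynomial (Fin n) k →ₗ[k] k := fun i => e.toLinearMap ∘ₗ (pderiv i).toLinearMap
  have d1 : ∀ i j r, d i (X j * r) = if i = j then e r else 0 := fun i j r => by
    by_cases h : i = j <;> simp [d, e, h, Ne.symm]
  have z1 : ∀ a ∈ I, e a = 0 ∧ ∀ i, d i a = 0 := fun a ha => by
    have : ∀ c, e (c * a) = 0 ∧ ∀ i, d i (c * a) = 0 := by
      refine Submodule.span_induction (p := fun a _ => ∀ c, e (c * a) = 0 ∧ ∀ i, d i (c * a) = 0) ?_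
        (by simp) (fun a b _ _ h1 h2 c => by simp [mul_add, h1 c, h2 c, -map_mul])
        (fun a b _ h c => by simpa only [smul_eq_mul, mul_assoc] using h (c * a)) (hI ha)
      rintro _ ⟨i, j, rfl⟩ c
      rw [mul_left_comm]
      exact ⟨by simp [e], fun l => by rw [d1]; simp [e]⟩
    simpa using this 1
  let ε := Ideal.Quotient.liftₐ I e fun a ha => (z1 a ha).1
  let D : Fin n → (MvPolynomial (Fin n) k ⧸ I) →ₗ[k] k := fun i =>
    (I.restrictScalars k).liftQ (d i) (fun a ha => (z1 a ha).2 i) ∘ₗ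
      (Submodule.Quotient.restrictScalarsEquiv k I).symm.toLinearMap
  refine Submodule.smul_mono_left (fun r hr => ?_) (cyc_mem _ ε D (fun i j r => ?_) hi hz h)
  · have : r - algebraMap k _ (ε r) ∈ Ideal.span (Set.range fun j => Ideal.Quotient.mk I (X j)) := by
      obtain ⟨p, rfl⟩ := Ideal.Quotient.mk_surjective r
      clear hr
      induction p using MvPolynomial.induction_on with
      | C c =>
        rw [show Ideal.Quotient.mk I (C c) = algebraMap k _ c from rfl, AlgHom.commutes]; simp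
      | add p q hp hq => simpa [add_sub_add_comm] using add_mem hp hq
      | mul_X p i _ =>
        rw [map_mul, map_mul, show ε (Ideal.Quotient.mk I (X i)) = 0 from aeval_X _ i]
        rw [mul_zero, map_zero, sub_zero]
        exact Ideal.mul_mem_left _ _ (Ideal.subset_span ⟨i, rfl⟩)
    rwa [show ε r = 0 from hr, map_zero, sub_zero] at this
  · obtain ⟨p, rfl⟩ := Ideal.Quotient.mk_surjective r
    exact d1 i j p

lemma golod_min {R : Type} [CommRing R] [Algebra k R] (x : Fin n → R)
    (hc : ∀ i, 1 ≤ i → ∀ z ∈ Kdeg k R n i, kd k x z = 0 → z ∈ Ideal.span (Set.range x) • Kdeg k R n i)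
    (u : Fin n → k) (h1 : ∀ r, (∑ j, u j • x j) * r = 0 → r = 0)
    (h2 : ∀ i j, ∃ r ∈ Ideal.span (Set.range x), x i * x j = (∑ j, u j • x j) * r) : Golod k x := by
  set y := ∑ j, u j • x j with hy
  refine golod_of x _ (fun i hi z hz h => ⟨z, hc i hi z hz h, h, 0, by simp⟩) fun j z hz h => ?_
  have : Ideal.span (Set.range x) * Ideal.span (Set.range x) ≤ Ideal.span {y} * Ideal.span (Set.range x) := by
    rw [Ideal.span_mul_span, Ideal.span_le]
    rintro _ ⟨_, ⟨i, rfl⟩, _, ⟨j, rfl⟩, rfl⟩
    obtain ⟨r, hr, e⟩ := h2 i j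
    change x i * x j ∈ _
    rw [e]
    exact Ideal.mul_mem_mul (Ideal.mem_span_singleton_self y) hr
  have := Submodule.smul_mono_left this hz
  rw [Submodule.mul_smul, Submodule.ideal_span_singleton_smul] at this
  obtain ⟨w, hw, rfl⟩ := (Submodule.mem_smul_pointwise_iff_exists _ _ _).1 this
  have inj : Function.Injective ((LinearMap.mulLeft k y).rTensor (Ex k (Fin n → k))) :=
    Module.Flat.rTensor_preserves_injective_linearMap _ ((injective_iff_map_eq_zero _).2 h1)
  have w0 : kd k x w = 0 := inj (by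
    rw [map_smul] at h
    rw [map_zero, ← h]
    generalize kd k x w = t
    induction t using TensorProduct.induction_on with
    | zero => simp
    | add a b ha hb => simp only [map_add, smul_add, ha, hb]
    | tmul r a => simp [smul_tmul'])
  have e1 : (1 : R) ⊗ₜ[k] ι k u ∈ Kdeg k R n 1 := tmul_mem _ (by simp)
  refine ⟨(1 : R) ⊗ₜ[k] ι k u * w, ?_, ?_⟩
  · refine Submodule.smul_induction_on (p := fun w => (1 : R) ⊗ₜ[k] ι k u * w ∈
      Ideal.span (Set.range x) • Kdeg k R n (j + 1)) hw (fun r hr a ha => ?_)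
      fun _ _ h1 h2 => by rw [mul_add]; exact add_mem h1 h2
    rw [mul_smul_comm, add_comm]
    exact Submodule.smul_mem_smul hr (mul_deg e1 ha)
  · rw [leib x e1, w0, kd_tmul]
    simp only [dl_ι, mul_zero, smul_zero, add_zero, mul_one, Algebra.algebraMap_eq_smul_one, tmul_smul,
      smul_tmul', ← sum_tmul]
    rw [show y • w = (y • (1 : Kz k R n)) * w by simp, Algebra.TensorProduct.one_def, smul_tmul']
    simp [hy]

end Pool.Agent.H.MP_811251_al
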